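import Pool.Agent.Work.MP_223b32_tc.Interface

/-!
# NA: the upper bound of Stepanov's method
-/

namespace Pool.Agent.Work.TC

open Finset Polynomial

namespace NA

/-- Vanishing Hasse derivatives give a zero of high order. -/
theorem pow_dvd {E : Type} [Field E] (P : E[X]) (x : E) (l : ℕ)
    (h : ∀ k < l, (hasseDeriv k P).eval x = 0) : (X - C x) ^ l ∣ P := by
  rw [X_sub_C_pow_dvd_iff, X_pow_dvd_iff]
  intro k hk
  have h1 := h k hk
  rw [← taylor_coeff, taylor_apply] at h1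
  exact h1

/-- The number of zeros of order at least `l`. -/
theorem card_mul_le {E : Type} [Field E] (P : E[X]) (hP : P ≠ 0) (S : Finset E) (l : ℕ)
    (h : ∀ x ∈ S, (X - C x) ^ l ∣ P) : l * S.card ≤ P.natDegree := by
  classical
  have h1 : l • S.val ≤ P.roots := by
    rw [Multiset.le_iff_count]
    intro x
    rw [Multiset.count_nsmul, count_roots]
    by_cases hx : x ∈ S
    · have h2 : Multiset.count x S.val ≤ 1 := Multiset.nodup_iff_count_le_one.mp S.nodup x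
      have h3 : l ≤ rootMultiplicity x P := (le_rootMultiplicity_iff hP).mpr (h x hx)
      calc l * Multiset.count x S.val ≤ l * 1 := Nat.mul_le_mul_left _ h2
        _ ≤ rootMultiplicity x P := by simpa using h3
    · have h2 : Multiset.count x S.val = 0 := Multiset.count_eq_zero_of_notMem hx
      rw [h2]
      simp
  have h2 := Multiset.card_le_card h1
  rw [Multiset.card_nsmul] at h2
  exact h2.trans (card_roots' P)

/-- The degree of the auxiliary polynomial. -/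
theorem natDegree_le {E : Type} [Field E] (H : E[X]) (d D J l u Q : ℕ) (hd : H.natDegree ≤ d)
    (r s : Fin J → E[X]) (hr : ∀ j, r j ∈ degreeLT E D) (hs : ∀ j, s j ∈ degreeLT E D) :
    (H ^ l * ∑ j, (r j + s j * H ^ u) * X ^ ((j : ℕ) * Q)).natDegree ≤
      l * d + (D + u * d + (J - 1) * Q) := by
  have hdeg : ∀ p : E[X], p ∈ degreeLT E D → p.natDegree ≤ D := fun p hp =>
    natDegree_le_of_degree_le (mem_degreeLT.mp hp).le
  have h1 : (H ^ l).natDegree ≤ l * d :=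
    natDegree_pow_le.trans (Nat.mul_le_mul_left _ hd)
  have hu : (H ^ u).natDegree ≤ u * d :=
    natDegree_pow_le.trans (Nat.mul_le_mul_left _ hd)
  refine natDegree_mul_le.trans (Nat.add_le_add h1 ?_)
  refine natDegree_sum_le_of_forall_le _ _ fun j _ => ?_
  have h2 : (r j + s j * H ^ u).natDegree ≤ D + u * d := by
    refine (natDegree_add_le _ _).trans (max_le ?_ ?_)
    · exact (hdeg _ (hr j)).trans (Nat.le_add_right _ _)
    · exact natDegree_mul_le.trans (Nat.add_le_add (hdeg _ (hs j)) hu)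
  have h3 : ((X : E[X]) ^ ((j : ℕ) * Q)).natDegree ≤ (J - 1) * Q := by
    rw [natDegree_X_pow]
    exact Nat.mul_le_mul_right _ (by have := j.isLt; omega)
  exact natDegree_mul_le.trans (Nat.add_le_add h2 h3)

/-- The inequality of parameters. -/
theorem params (Q d l D J : ℕ) (hd : 1 ≤ d) (hQ : 100 * d ^ 2 ≤ Q) (hl : l * l ≤ Q)
    (hD : Q ≤ 2 * D + d + 1) (hJ : l + 2 * d ≤ 2 * J) (hJ' : 2 * J ≤ l + 2 * d + 1) :
    2 * (l * (D + J)) + (d - 1) * (l * (l - 1)) < 4 * (D * J) := by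
  obtain ⟨e, rfl⟩ : ∃ e, d = e + 1 := ⟨d - 1, by omega⟩
  have hl1 : (l : ℝ) * (10 * (e + 1)) ≤ Q := by
    have h1 : ((10 * (e + 1) : ℕ) : ℝ) ^ 2 ≤ Q := by
      have : (10 * (e + 1)) ^ 2 ≤ Q := by nlinarith
      exact_mod_cast this
    have h2 : (l : ℝ) ^ 2 ≤ Q := by
      have : l ^ 2 ≤ Q := by nlinarith
      exact_mod_cast this
    push_cast at h1
    nlinarith [sq_nonneg ((l : ℝ) - 10 * (e + 1))]
  have hl2 : (l : ℝ) ^ 2 ≤ Q := by
    have : l ^ 2 ≤ Q := by nlinarith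
    exact_mod_cast this
  have hD' : (Q : ℝ) ≤ 2 * D + e + 2 := by
    have : Q ≤ 2 * D + e + 2 := by omega
    exact_mod_cast this
  have hJ1 : (l : ℝ) + 2 * (e + 1) ≤ 2 * J := by exact_mod_cast hJ
  have hJ2 : 2 * (J : ℝ) ≤ l + 2 * (e + 1) + 1 := by exact_mod_cast hJ'
  have hQ' : 100 * ((e : ℝ) + 1) ^ 2 ≤ Q := by exact_mod_cast hQ
  have he : (0 : ℝ) ≤ e := Nat.cast_nonneg _
  have hl0 : (0 : ℝ) ≤ l := Nat.cast_nonneg _
  have hD0 : (0 : ℝ) ≤ D := Nat.cast_nonneg _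
  have hsub : ((e + 1 - 1 : ℕ) : ℝ) = e := by simp
  have hll : ((l * (l - 1) : ℕ) : ℝ) = l * (l - 1) := by
    rcases Nat.eq_zero_or_pos l with h | h
    · subst h; simp
    · rw [Nat.cast_mul, Nat.cast_sub h]; simp
  have key : 2 * ((l : ℝ) * (D + J)) + e * (l * (l - 1)) < 4 * (D * J) := by
    -- 4 D J - 2 l D ≥ 4 D (e+1)
    have h1 : 2 * (D : ℝ) * (2 * (e + 1)) ≤ 2 * D * (2 * J - l) :=
      mul_le_mul_of_nonneg_left (by linarith) (by linarith)
    have h2 : ((Q : ℝ) - e - 2) * (2 * (e + 1)) ≤ 2 * D * (2 * (e + 1)) :=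
      mul_le_mul_of_nonneg_right (by linarith) (by linarith)
    have h3 : (l : ℝ) * (2 * J) ≤ l * (l + 2 * (e + 1) + 1) :=
      mul_le_mul_of_nonneg_left hJ2 hl0
    have h4 : (e : ℝ) * l ^ 2 ≤ e * Q := mul_le_mul_of_nonneg_left hl2 he
    have h5 : (e : ℝ) * (l * 10) ≤ Q := by nlinarith
    have h6 : (l : ℝ) * 10 ≤ Q := by nlinarith
    have h7 : (0 : ℝ) < Q := by nlinarith
    nlinarith [mul_nonneg he h7.le, mul_nonneg he he]
  have : ((2 * (l * (D + J)) + (e + 1 - 1) * (l * (l - 1)) : ℕ) : ℝ) < ((4 * (D * J) : ℕ) : ℝ) := by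
    rw [Nat.cast_add, Nat.cast_mul (e + 1 - 1), hsub, hll]
    push_cast
    linarith
  exact_mod_cast this

end NA

open NA in
theorem stmt_NA (hNV : Stmt_NV) (hEXI : Stmt_EXI) : Stmt_NA := by
  intro E _ _ hchar H d a hd hHd hQ h0 hsq ha
  classical
  set Q := Fintype.card E with hQdef
  set l := Nat.sqrt Q with hl
  set D := (Q - d) / 2 with hD
  set J := (l + 2 * d + 1) / 2 with hJ
  have hdQ : d ≤ Q := by nlinarith
  have hll : l * l ≤ Q := Nat.sqrt_le Q
  have hlQ : l ≤ Q := Nat.sqrt_le_self Q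
  have hl10 : 10 ≤ l := by
    rw [hl, Nat.le_sqrt]
    nlinarith
  have hJ1 : 1 ≤ J := by omega
  have hpar := params Q d l D J hd hQ hll (by omega) (by omega) (by omega)
  obtain ⟨r, s, hr, hs, ⟨j0, hj0⟩, hvan⟩ := hEXI E hchar H d D J l a hd hHd hlQ hJ1 hpar
  have hne : (∑ j, (r j + s j * H ^ (Q / 2)) * X ^ ((j : ℕ) * Q)) ≠ 0 := by
    intro hz
    obtain ⟨h1, h2⟩ := hNV E hchar H d D J hHd (by omega) h0 hsq r s hr hs hz
    rcases hj0 with h | h
    · exact h (h1 j0)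
    · exact h (h2 j0)
  have hH0 : H ≠ 0 := by
    intro h
    apply h0
    rw [h, eval_zero]
  set P := H ^ l * ∑ j, (r j + s j * H ^ (Q / 2)) * X ^ ((j : ℕ) * Q) with hP
  have hP0 : P ≠ 0 := mul_ne_zero (pow_ne_zero _ hH0) hne
  have hdeg := natDegree_le H d D J l (Q / 2) Q hHd r s hr hs
  rw [← hP] at hdeg
  set S : Finset E := Finset.univ.filter fun x => H.eval x ^ (Q / 2) = a with hS
  have hcard : l * S.card ≤ P.natDegree := by
    refine card_mul_le P hP0 S l fun x hx => pow_dvd P x l fun k hk => ?_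
    exact hvan x (Finset.mem_filter.mp hx).2 k hk
  have hSc : Nat.card {x : E // H.eval x ^ (Q / 2) = a} = S.card := by
    rw [Nat.card_eq_fintype_card, Fintype.card_subtype]
  rw [hSc]
  have htot : l * S.card ≤ l * d + (D + Q / 2 * d + (J - 1) * Q) := hcard.trans hdeg
  -- real numbers
  have hreal : 2 * ((l : ℝ) * S.card) ≤ 2 * (l * d) + 3 * (d * Q) + l * Q := by
    have h1 : 2 * (l * S.card) ≤ 2 * (l * d) + (2 * D + 2 * (Q / 2) * d + 2 * (J - 1) * Q) := by
      have := Nat.mul_le_mul_left 2 htot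
      calc 2 * (l * S.card) ≤ 2 * (l * d + (D + Q / 2 * d + (J - 1) * Q)) := this
        _ = _ := by ring
    have h2 : 2 * D ≤ Q := by omega
    have h3 : 2 * (Q / 2) * d ≤ Q * d := Nat.mul_le_mul_right _ (by omega)
    have h4 : 2 * (J - 1) * Q ≤ (l + 2 * d - 1) * Q := Nat.mul_le_mul_right _ (by omega)
    have h5 : 2 * (l * S.card) ≤ 2 * (l * d) + (Q + Q * d + (l + 2 * d - 1) * Q) := by
      linarith
    have h6 : (l + 2 * d - 1) * Q + Q = (l + 2 * d) * Q := by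
      obtain ⟨e, he⟩ : ∃ e, l + 2 * d = e + 1 := ⟨l + 2 * d - 1, by omega⟩
      rw [he]
      simp only [Nat.add_sub_cancel]
      ring
    have h7 : 2 * (l * S.card) ≤ 2 * (l * d) + 3 * (d * Q) + l * Q := by
      calc 2 * (l * S.card) ≤ 2 * (l * d) + (Q + Q * d + (l + 2 * d - 1) * Q) := h5
        _ = 2 * (l * d) + (Q * d + ((l + 2 * d - 1) * Q + Q)) := by ring
        _ = 2 * (l * d) + (Q * d + (l + 2 * d) * Q) := by rw [h6]
        _ = _ := by ring
    exact_mod_cast h7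
  have hsq1 : √(Q : ℝ) < l + 1 := by
    have h1 : Q < (l + 1) * (l + 1) := Nat.lt_succ_sqrt Q
    have h2 : (Q : ℝ) < ((l : ℝ) + 1) ^ 2 := by
      have : Q < (l + 1) ^ 2 := by nlinarith
      exact_mod_cast this
    exact (Real.sqrt_lt' (by positivity)).mpr h2
  have hsq2 : √(Q : ℝ) ^ 2 = Q := Real.sq_sqrt (Nat.cast_nonneg _)
  have hl10' : (10 : ℝ) ≤ l := by exact_mod_cast hl10
  have hsq3 : (l : ℝ) ≤ √(Q : ℝ) := by
    apply Real.le_sqrt_of_sq_le
    have : l ^ 2 ≤ Q := by nlinarith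
    exact_mod_cast this
  have hd' : (1 : ℝ) ≤ d := by exact_mod_cast hd
  set R := √(Q : ℝ) with hR
  have hlpos : (0 : ℝ) < l := by linarith
  have hfin : (l : ℝ) * S.card ≤ l * ((Q : ℝ) / 2 + 3 * d * R) := by
    have h1 : (l : ℝ) * d + 3 / 2 * (d * Q) ≤ l * (3 * d * R) := by
      rw [← hsq2]
      have h2 : (l : ℝ) + 3 / 2 * R ^ 2 ≤ l * (3 * R) := by nlinarith
      nlinarith
    nlinarith
  exact le_of_mul_le_mul_left hfin hlpos

end Pool.Agent.Work.TC
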